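import Pool.Agent.Y920.EP.Stm

/-! EP-TOWER': uniqueness of the extension of the valuation ring in p-towers. -/

set_option autoImplicit false

namespace Pool.Agent.Y925.EP

open Pool.Agent.Y920.EP

theorem t_TOWER' : Pool.Agent.Y920.EP.S_TOWER' := by
  intro hKUM hUP p hp hp2 k
  induction k with
  | zero =>
    intro F M _ _ _ _ _ _ hd O hO O₁ O₂ h1 h2
    rw [pow_zero] at hd
    have hb : (⊥ : Subalgebra F M) = ⊤ := Subalgebra.bot_eq_top_iff_finrank_eq_one.2 hd
    ext x
    have hx : x ∈ (⊥ : Subalgebra F M) := by
      rw [hb]
      exact Algebra.mem_top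
    obtain ⟨y, rfl⟩ := Algebra.mem_bot.1 hx
    rw [← ValuationSubring.mem_comap, ← ValuationSubring.mem_comap, h1, h2]
  | succ k ih =>
    intro F M _ _ _ _ _ hζ hd O hO O₁ O₂ h1 h2
    have hcard : Nat.card (M ≃ₐ[F] M) = p ^ (k + 1) := by
      rw [IsGalois.card_aut_eq_finrank, hd]
    have : Fact (Nat.Prime p) := ⟨hp⟩
    obtain ⟨U, hU⟩ := Sylow.exists_subgroup_card_pow_prime (G := M ≃ₐ[F] M) p (n := k)
      (by rw [hcard]; exact pow_dvd_pow p (Nat.le_succ k))
    have hpos : 0 < p ^ k := pow_pos hp.pos k
    have hind : U.index = p := by
      have h3 := U.card_mul_index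
      rw [hU, hcard, pow_succ] at h3
      exact Nat.eq_of_mul_eq_mul_left hpos h3
    have hnor : U.Normal := by
      apply Subgroup.normal_of_index_eq_minFac_card
      rw [hind, hcard, hp.pow_minFac (Nat.succ_ne_zero k)]
    have hEM : Module.finrank (IntermediateField.fixedField U) M = p ^ k := by
      rw [IntermediateField.finrank_fixedField_eq_card, hU]
    have hFE : Module.finrank F (IntermediateField.fixedField U) = p := by
      have h3 := Module.finrank_mul_finrank F (IntermediateField.fixedField U) M
      rw [hEM, hd, pow_succ, mul_comm] at h3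
      exact Nat.eq_of_mul_eq_mul_left hpos h3
    have hgal : IsGalois F (IntermediateField.fixedField U) := inferInstance
    have hc : ∀ P : ValuationSubring M, P.comap (algebraMap F M) = O →
        (P.comap (algebraMap (IntermediateField.fixedField U) M)).comap
          (algebraMap F (IntermediateField.fixedField U)) = O := by
      intro P hP
      rw [← hP]
      rfl
    have hK := hKUM p hp F (IntermediateField.fixedField U) hζ hFE O hO.2.2
    have hP := hK _ _ (hc O₁ h1) (hc O₂ h2)
    have hinv : ∀ (σ : IntermediateField.fixedField U ≃ₐ[F] IntermediateField.fixedField U)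
        (x : IntermediateField.fixedField U),
        σ x ∈ O₁.comap (algebraMap (IntermediateField.fixedField U) M) ↔
          x ∈ O₁.comap (algebraMap (IntermediateField.fixedField U) M) := by
      intro σ x
      have h4 : ((O₁.comap (algebraMap (IntermediateField.fixedField U) M)).comap
          (σ : IntermediateField.fixedField U →+* IntermediateField.fixedField U)).comap
          (algebraMap F (IntermediateField.fixedField U)) = O := by
        rw [← hc O₁ h1]
        ext y
        simp only [ValuationSubring.mem_comap]
        have h5 : (σ : IntermediateField.fixedField U →+* IntermediateField.fixedField U)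
            (algebraMap F (IntermediateField.fixedField U) y) =
            algebraMap F (IntermediateField.fixedField U) y := σ.commutes y
        rw [h5]
      have h6 := hK _ _ h4 (hc O₁ h1)
      constructor
      · intro h7
        rw [← h6]
        exact h7
      · intro h7
        rw [← h6] at h7
        exact h7
    have hpw := hUP p hp hp2 F (IntermediateField.fixedField U) hζ hFE O hO _ (hc O₁ h1) hinv
    have hζ' : ∃ ζ : IntermediateField.fixedField U, IsPrimitiveRoot ζ p := by
      obtain ⟨ζ, h⟩ := hζ
      exact ⟨_, h.map_of_injective
        (algebraMap F (IntermediateField.fixedField U)).injective⟩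
    exact ih (IntermediateField.fixedField U) M hζ' hEM _ hpw O₁ O₂ rfl hP.symm

end Pool.Agent.Y925.EP
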